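import Pool.Agent.TH699.TS.DagFin

/-!
A superlinear lower bound for the length of unrestricted dag-like refutations: for CNF formulas of
bounded width which have tree-like refutations of linear size with systems of equations of degree
`k + 1` modulo 2, dag-like refutations whose lines are Boolean functions of `r` systems of
polynomial equations of degree at most `k`, each system modulo an arbitrary number, need `Ω(n log n)`
lines.
-/

open Finset

namespace Pool.Agent.Results.MP_c04246_lc.DagLength

open Pool.Agent.H642R2.Dual Pool.Agent.TH699.TD Pool.Agent.TH699.TS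

/-- For all `k ≥ 1` and `n ≥ 25` there is an unsatisfiable CNF formula `Φ` whose number `N` of
variables is between `n` and `C n`, where `C = 2^(3k+13)`, with at most `2^C n` clauses, each with
at most `C` literals, such that
* `Φ` has a tree-like refutation with at most `2^C n` nodes whose lines are systems of at most
  `N + 1` polynomial equations of degree at most `k + 1` modulo 2, or negations of such systems,
  but
* for all `r`, every dag-like semantic refutation of `Φ` with `T` lines, each of which has at most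
  two premises and is a Boolean function of `r` systems of polynomial equations of degree at most
  `k`, each system modulo an arbitrary number, satisfies
  `T ≥ (n/(r+1)) log₂ (n/(r+1)) / 250`. -/
theorem result (k n : ℕ) (hk : 1 ≤ k) (hn : 25 ≤ n) :
    ∃ (V : Type) (_ : Fintype V) (_ : DecidableEq V) (Φ : Finset (Clause V)),
      n ≤ Fintype.card V ∧ Fintype.card V ≤ 2 ^ (3 * k + 13) * n ∧
      Φ.card ≤ 2 ^ 2 ^ (3 * k + 13) * n ∧ (∀ C ∈ Φ, C.card ≤ 2 ^ (3 * k + 13)) ∧
      (∀ x, ∃ C ∈ Φ, ¬ Sat C x) ∧
      (∃ t : Der V, t.IsRefutation (ClauseAx Φ) ∧ t.All (Mod2Line (k + 1)) ∧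
        nodes t ≤ 2 ^ 2 ^ (3 * k + 13) * n) ∧
      (∀ (r T : ℕ) (L : ℕ → Line V) (P : ℕ → Finset ℕ), IsDag (ClauseAx Φ) T L P →
        (∀ i < T, (P i).card ≤ 2) → (∀ i < T, Combo r (ModLine k) (L i)) →
        (n / (r + 1) : ℝ) * Real.logb 2 (n / (r + 1)) ≤ 250 * T) := by
  obtain ⟨V, i1, i2, Φ, h1, h2, -, h3, h4, h5, h6, h8⟩ := exists_dag hk hn
  have e1 : 2 ^ (3 * k + 9) ≤ 2 ^ (3 * k + 13) := Nat.pow_le_pow_right (by norm_num) (by omega)
  have e2 : 2 ^ (3 * k + 10) ≤ 2 ^ (3 * k + 13) := Nat.pow_le_pow_right (by norm_num) (by omega)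
  exact ⟨V, i1, i2, Φ, h1, h2.trans (Nat.mul_le_mul_right _ e1),
    h3.trans (Nat.mul_le_mul_right _ (Nat.pow_le_pow_right (by norm_num) e2)),
    fun C hC => (h4 C hC).trans e2, h5, h6,
    fun r T L P hD htwo hL => (h8 r T L P hD hL).2 htwo⟩

end Pool.Agent.Results.MP_c04246_lc.DagLength
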