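import Pool.Agent.TH699.TS.ReuseFin

/-!
A strictly exponential hierarchy theorem for refutations in which few lines are used more than once
(in particular tree-like refutations), whose lines are Boolean functions of `r` systems of
polynomial equations modulo any numbers: for every `k`, degree `k + 1` (even modulo 2) has tree-like
refutations of linear size, and degree `k` needs length exponential in the number of variables
unless linearly many lines are used more than once, for CNF formulas of bounded width.
-/

open Finset

namespace Pool.Agent.Results.MP_c04246_lc.DegreeHierarchyTrees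

open Pool.Agent.H642R2.Dual Pool.Agent.TH699.TD Pool.Agent.TH699.TS

/-- For all `k ≥ 1` and `n ≥ 25` there is an unsatisfiable CNF formula `Φ` whose number `N` of
variables is between `n` and `C n`, where `C = 2^(3k+13)`, with at most `2^C n` clauses, each with
at most `C` literals, such that
* `Φ` has a tree-like refutation with at most `2^C n` nodes whose lines are systems of at most
  `N + 1` polynomial equations of degree at most `k + 1` modulo 2, or negations of such systems,
  but
* for all `r` and `s`, every dag-like semantic refutation of `Φ` with `T` lines, each of which has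
  at most two premises and is a Boolean function of `r` systems of polynomial equations of degree
  at most `k`, each system modulo an arbitrary number, in which at most `s` lines, not counting
  lines which follow from one clause of `Φ`, are used more than once as premises, satisfies
  `T ≥ 2^(N/(C(r+1)) - s - 1)`.  (`U` contains the numbers of the lines used more than once.) -/
theorem result (k n : ℕ) (hk : 1 ≤ k) (hn : 25 ≤ n) :
    ∃ (V : Type) (_ : Fintype V) (_ : DecidableEq V) (Φ : Finset (Clause V)),
      n ≤ Fintype.card V ∧ Fintype.card V ≤ 2 ^ (3 * k + 13) * n ∧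
      Φ.card ≤ 2 ^ 2 ^ (3 * k + 13) * n ∧ (∀ C ∈ Φ, C.card ≤ 2 ^ (3 * k + 13)) ∧
      (∀ x, ∃ C ∈ Φ, ¬ Sat C x) ∧
      (∃ t : Der V, t.IsRefutation (ClauseAx Φ) ∧ t.All (Mod2Line (k + 1)) ∧
        nodes t ≤ 2 ^ 2 ^ (3 * k + 13) * n) ∧
      (∀ (r T : ℕ) (L : ℕ → Line V) (P : ℕ → Finset ℕ) (U : Finset ℕ),
        IsDag (ClauseAx Φ) T L P → (∀ i < T, (P i).card ≤ 2) →
        (∀ i < T, Combo r (ModLine k) (L i)) →
        (∀ u, u ∉ U → ¬ ClauseAx Φ (L u) →
          ∀ i < T, ∀ i' < T, u ∈ P i → u ∈ P i' → i = i') →
        (2 : ℝ) ^ (Fintype.card V / (2 ^ (3 * k + 13) * (r + 1)) - U.card - 1 : ℝ) ≤ T) := by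
  obtain ⟨V, i1, i2, Φ, h1, h2, -, h3, h4, h5, h6, h7, -⟩ := exists_reuse hk hn
  have e1 : 2 ^ (3 * k + 9) ≤ 2 ^ (3 * k + 13) := Nat.pow_le_pow_right (by norm_num) (by omega)
  have e2 : 2 ^ (3 * k + 10) ≤ 2 ^ (3 * k + 13) := Nat.pow_le_pow_right (by norm_num) (by omega)
  exact ⟨V, i1, i2, Φ, h1, h2.trans (Nat.mul_le_mul_right _ e1),
    h3.trans (Nat.mul_le_mul_right _ (Nat.pow_le_pow_right (by norm_num) e2)),
    fun C hC => (h4 C hC).trans e2, h5, h6, h7⟩

end Pool.Agent.Results.MP_c04246_lc.DegreeHierarchyTrees
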