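import Pool.Agent.TH708.Ash.Form
import Pool.Agent.TH708.Ips.Up

set_option autoImplicit false

/-!
# Algebraic refutations over finite fields given by formulas: many shared variables along some path

Let `K` be a field, for instance a finite field, `c ≠ 0`, `1 + c ≠ 0` in `K`.  The equation
`∏ i j, (1 + c * z i j * x i * x j) = 0` has no solution with Boolean `x i`, `z i j`.  We consider its
linear algebraic refutations (linear IPS over `K`)

`f * ∏ i j, (1 + c * z i j * x i * x j) + ∑ v, h v * (v ^ 2 - v) = 1`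

in which `f` is computed (at Boolean points) by an arithmetic formula over `K`.  Along every path from
the root to a leaf of the formula we add up, over the product gates of the path, the numbers of the
`x i` which both factors read.  If all these sums are at most `n ^ (1/2 - ε)`, the formula has at least
`2 ^ (ε² / 8 * (log n)²) / 2` leaves, `n ^ Ω(log n)`.  Without the restriction a product of `n²` small
formulas is enough.
-/

namespace Pool.Agent.Results.MP_c04246_lc.SharingFormulasFiniteFields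

open Finset
open Pool.Agent.TH708.Ari
open Pool.Agent.TH708.Ips
open Pool.Agent.TH708.Ash

theorem bound (ε : ℝ) (hε : 0 < ε) (hε' : ε ≤ 1 / 2) : ∃ N₀ : ℕ, ∀ (K : Type) [Field K] (c : K)
    (n : ℕ) (F : Ex K (Fin n ⊕ (Fin n × Fin n))) (W : Finset (Fin n)),
    c ≠ 0 → N₀ ≤ W.card → InvertsProd c F.eval →
      (2 : ℝ) ^ (ε ^ 2 / 8 * (Nat.log 2 W.card : ℝ) ^ 2) ≤ 2 * leaves F ∨
      (W.card : ℝ) ^ (1 / 2 - ε) < sharing Sum.inl W F := by
  obtain ⟨N₀, hN₀⟩ := size_or_share ε hε hε'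
  refine ⟨N₀, fun K _ c n F W hc hW hI => ?_⟩
  refine hN₀ K _ n F Sum.inl Sum.inl_injective W hW fun W' hW' Y hY => ?_
  refine full_of_count F.eval _ hI.isCount W' (fun s hs => ?_) Y hY
  rw [diff_pow, pow_zero, mul_one]
  exact pow_ne_zero _ (inv_ne_one hc)

/-- The product of formulas. -/
def prodEx {K I : Type} [Field K] : List (Ex K I) → Ex K I
  | [] => Ex.const 1
  | F :: l => Ex.mul F (prodEx l)

theorem prodEx_eval {K I : Type} [Field K] (z : I → K) : ∀ l : List (Ex K I),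
    (prodEx l).eval z = (l.map fun F => F.eval z).prod
  | [] => rfl
  | F :: l => by
    show F.eval z * (prodEx l).eval z = _
    rw [prodEx_eval z l, List.map_cons, List.prod_cons]

theorem prodEx_leaves {K I : Type} [Field K] : ∀ l : List (Ex K I),
    leaves (prodEx l) = (l.map leaves).sum + 1
  | [] => rfl
  | F :: l => by
    show leaves F + leaves (prodEx l) = _
    rw [prodEx_leaves l, List.map_cons, List.sum_cons]
    ring

/-- The formula of a pair. -/
def pairEx {K : Type} [Field K] {n : ℕ} (t : K) (q : Fin n × Fin n) :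
    Ex K (Fin n ⊕ (Fin n × Fin n)) :=
  Ex.add (Ex.const 1) (Ex.mul (Ex.const t)
    (Ex.mul (Ex.mul (Ex.var (Sum.inr q)) (Ex.var (Sum.inl q.1))) (Ex.var (Sum.inl q.2))))

theorem short' {K : Type} [Field K] (n : ℕ) (c : K) (hc : 1 + c ≠ 0) :
    ∃ (F : Ex K (Fin n ⊕ (Fin n × Fin n))) (f : MvPolynomial (Fin n ⊕ (Fin n × Fin n)) K)
      (h : Fin n ⊕ (Fin n × Fin n) → MvPolynomial (Fin n ⊕ (Fin n × Fin n)) K),
      Refutes (prodForm n c) f h ∧ (∀ p, F.eval p = MvPolynomial.eval p f) ∧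
      leaves F = 5 * n ^ 2 + 1 := by
  classical
  obtain ⟨t, ht⟩ : ∃ t, t = -c / (1 + c) := ⟨_, rfl⟩
  have h1 : (1 + t) * (1 + c) = 1 := by
    rw [ht]
    field_simp
    ring
  obtain ⟨h, hh⟩ := exists_refutes (prodForm n c) (prodForm n t) (by
    intro p hp
    simp only [prodForm, map_mul, map_add, map_one, map_prod, MvPolynomial.eval_X,
      MvPolynomial.eval_C]
    rw [prod_eq c p hp, prod_eq t p hp, ← mul_pow, h1, one_pow])
  refine ⟨prodEx ((univ : Finset (Fin n × Fin n)).toList.map (pairEx t)), prodForm n t, h, hh,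
    ?_, ?_⟩
  · intro p
    rw [prodEx_eval, List.map_map]
    simp only [prodForm, map_mul, map_add, map_one, map_prod, MvPolynomial.eval_X,
      MvPolynomial.eval_C]
    rw [← Fintype.prod_prod_type' (fun i j : Fin n =>
      (1 + t * (p (Sum.inr (i, j)) * p (Sum.inl i) * p (Sum.inl j)))), Finset.prod_map_toList]
    rfl
  · rw [prodEx_leaves, List.map_map]
    have h2 : (leaves ∘ pairEx t : Fin n × Fin n → ℕ) = fun _ => 5 := by
      funext q
      rfl
    rw [h2, List.map_const', List.sum_replicate, Finset.length_toList, card_univ,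
      Fintype.card_prod, Fintype.card_fin, smul_eq_mul]
    ring

theorem result :
    (∀ ε : ℝ, 0 < ε → ε ≤ 1 / 2 → ∃ N₀ : ℕ, ∀ (K : Type) [Field K] (c : K)
      (n : ℕ) (F : Ex K (Fin n ⊕ (Fin n × Fin n))) (W : Finset (Fin n)),
      c ≠ 0 → N₀ ≤ W.card → InvertsProd c F.eval →
        (2 : ℝ) ^ (ε ^ 2 / 8 * (Nat.log 2 W.card : ℝ) ^ 2) ≤ 2 * leaves F ∨
        (W.card : ℝ) ^ (1 / 2 - ε) < sharing Sum.inl W F) ∧
    (∀ (ε : ℝ) (b : ℕ), 0 < ε → ε ≤ 1 / 2 → ∃ N₀ : ℕ, ∀ n ≥ N₀, ∀ (K : Type) [Field K] (c : K),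
      c ≠ 0 →
      ¬ ∃ (F : Ex K (Fin n ⊕ (Fin n × Fin n))) (f : MvPolynomial (Fin n ⊕ (Fin n × Fin n)) K)
          (h : Fin n ⊕ (Fin n × Fin n) → MvPolynomial (Fin n ⊕ (Fin n × Fin n)) K),
          Refutes (prodForm n c) f h ∧
          (∀ p, (∀ v, p v = 0 ∨ p v = 1) → F.eval p = MvPolynomial.eval p f) ∧
          (sharing Sum.inl univ F : ℝ) ≤ (n : ℝ) ^ (1 / 2 - ε) ∧ leaves F ≤ n ^ b + b) ∧
    ∀ (K : Type) [Field K] (c : K) (n : ℕ), 1 + c ≠ 0 →
      ∃ (F : Ex K (Fin n ⊕ (Fin n × Fin n))) (f : MvPolynomial (Fin n ⊕ (Fin n × Fin n)) K)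
        (h : Fin n ⊕ (Fin n × Fin n) → MvPolynomial (Fin n ⊕ (Fin n × Fin n)) K),
        Refutes (prodForm n c) f h ∧ (∀ p, F.eval p = MvPolynomial.eval p f) ∧
        leaves F = 5 * n ^ 2 + 1 := by
  refine ⟨bound, ?_, fun K _ c n hc => short' n c hc⟩
  intro ε b hε hε'
  obtain ⟨N₀, hN₀⟩ := bound ε hε hε'
  obtain ⟨N₁, hN₁⟩ := exists_nat_gt (8 / ε ^ 2 * (3 * b + 2))
  refine ⟨N₀ + 2 ^ (N₁ + 1), fun n hn K _ c hc => ?_⟩
  rintro ⟨F, f, h, g1, g2, g3, g4⟩
  have hcard : (Finset.univ : Finset (Fin n)).card = n := by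
    rw [Finset.card_univ, Fintype.card_fin]
  have hb := hN₀ K c n F univ hc (by rw [hcard]; exact (Nat.le_add_right _ _).trans hn)
    (g1.invertsProd g2)
  rw [hcard] at hb
  obtain ⟨N, hN⟩ : ∃ N, N = Nat.log 2 n := ⟨_, rfl⟩
  rw [← hN] at hb
  have hNN : N₁ + 1 ≤ N := by
    rw [hN]
    exact Nat.le_log_of_pow_le (by norm_num) ((Nat.le_add_left _ _).trans hn)
  have hnN : n < 2 ^ (N + 1) := by
    rw [hN]
    exact Nat.lt_pow_succ_log_self (by norm_num) n
  rcases hb with hb | hb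
  · have h1 : (2 : ℝ) * leaves F ≤ 2 ^ (((N + 1) * b + b + 1 : ℕ) : ℝ) := by
      rw [Real.rpow_natCast]
      have hb' : b < 2 ^ b := Nat.lt_two_pow_self
      have h6 : n ^ b + b ≤ 2 ^ ((N + 1) * b + b) := by
        have h5 : n ^ b ≤ 2 ^ ((N + 1) * b) := by
          rw [pow_mul]
          exact Nat.pow_le_pow_left hnN.le b
        rw [pow_add]
        have hx : 1 ≤ 2 ^ ((N + 1) * b) := Nat.one_le_two_pow
        nlinarith
      have h7 : 2 * leaves F ≤ 2 ^ ((N + 1) * b + b + 1) := by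
        rw [pow_succ]
        have := g4.trans h6
        omega
      exact_mod_cast h7
    have h2 := (Real.rpow_le_rpow_left_iff (by norm_num : (1 : ℝ) < 2)).1 (hb.trans h1)
    push_cast at h2
    have hNr : (N₁ : ℝ) + 1 ≤ N := by exact_mod_cast hNN
    have hc0 : (0 : ℝ) ≤ b := Nat.cast_nonneg _
    have h3 : 8 / ε ^ 2 * (3 * b + 2) ≤ (N : ℝ) := by linarith
    have h1N : (1 : ℝ) ≤ N := by
      have : (0 : ℝ) ≤ N₁ := Nat.cast_nonneg _
      linarith
    have h4 : (3 * (b : ℝ) + 2) ≤ ε ^ 2 / 8 * N := by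
      have h5 : ε ^ 2 / 8 * (8 / ε ^ 2 * (3 * b + 2)) = 3 * (b : ℝ) + 2 := by
        have : ε ^ 2 ≠ 0 := by positivity
        field_simp
      rw [← h5]
      exact mul_le_mul_of_nonneg_left h3 (by positivity)
    have h5 : (3 * (b : ℝ) + 2) * N ≤ ε ^ 2 / 8 * N ^ 2 := by
      have := mul_le_mul_of_nonneg_right h4 (by linarith : (0 : ℝ) ≤ N)
      nlinarith
    nlinarith
  · linarith

end Pool.Agent.Results.MP_c04246_lc.SharingFormulasFiniteFields
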