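import Pool.Agent.TH677.SG.Few

/-!
# MP_c04246_lc: refutations of the pigeonhole principle with small classes of symmetric gates

Definitions (`Pool/Agent/TH677/SG/Defs.lean`, `gates` in `Pool/Agent/TH677/SG/Few.lean`):

* `CF α`: formulas with `¬`, unbounded `∧`, `∨` and symmetric gates `cnt S t φs` (the number `x` of
  true formulas among `φs 0, …, φs (t - 1)` satisfies `S x`) for every `S`: all connectives
  `MOD_(q,i)` for all `q`, and all thresholds; `CF.depth`: alternation depth;
* `Refutation c d m n K`: refutations of the pigeonhole principle (`m` pigeons, `n` holes) by lines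
  of depth at most `d`: clauses, any sound inferences for `¬`, `∧`, `∨` which are `c`-local or case
  distinctions (`Inferred`), and the defining axioms of the symmetric gates (`IsCounting K`), which
  relate a list of arguments to the list with one more argument, or to its permutations;
* a marking `K` marks some positions in every list of formulas; a counting axiom is compatible with
  `K` if it remains correct when only the marked arguments are counted; `markAll` marks everything
  and all counting axioms are compatible with it;
* `gates L`: the multisets of arguments of the symmetric gates in the lines; `comp 𝒢 M`: the members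
  of `𝒢` that can be reached from `M` inside `𝒢` by adding or removing one argument at a time.
-/

set_option autoImplicit false

namespace Pool.Agent.Results.MP_c04246_lc.SmallCountingClasses

open Pool.Agent.TH677.SG

/-- For every `c`, `d` and `δ > 0` there is an `ε > 0` such that for all large `n` and all
`m ≤ n + n ^ (1 - δ)` every depth-`d` refutation of the pigeonhole principle with `m` pigeons and
`n` holes with symmetric gates of any fan-in has size at least `exp (n ^ ε)`, in each of the
following two cases:
(1) the counting axioms used are compatible with a marking of at most `n ^ ε` arguments per gate;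
(2) all counting axioms are allowed, but every class of symmetric gates has at most `n ^ ε` different
multisets of arguments, where two gates are in the same class if one can pass from the arguments of
one to those of the other through arguments of gates of the refutation by adding or removing one
argument at a time. In particular this holds if there are at most `n ^ ε` different multisets of
arguments altogether. -/
theorem result (c d : ℕ) (δ : ℝ) (hδ : 0 < δ) : ∃ ε : ℝ, 0 < ε ∧ ∃ n₀ : ℕ, ∀ n m : ℕ, n₀ ≤ n →
    (m : ℝ) ≤ n + (n : ℝ) ^ (1 - δ) →
    (∀ K : Marking (Fin m × Fin n),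
      (∀ (t : ℕ) (Γ : Fin t → CF (Fin m × Fin n)), ((K t Γ).card : ℝ) ≤ (n : ℝ) ^ ε) →
      ∀ R : Refutation c d m n K, Real.exp ((n : ℝ) ^ ε) ≤ R.size) ∧
    ∀ R : Refutation c d m n (markAll (Fin m × Fin n)),
      (∀ M ∈ gates R.line, ((comp (gates R.line) M).card : ℝ) ≤ (n : ℝ) ^ ε) →
        Real.exp ((n : ℝ) ^ ε) ≤ R.size := by
  obtain ⟨ε, hε, n₀, h⟩ := lower_exp' c d δ hδ
  refine ⟨ε, hε, n₀, fun n m hn hm => ⟨h n m hn hm, fun R hR => ?_⟩⟩
  refine h n m hn hm (outside (gates R.line)) (fun t Γ => ?_) R.remark
  have h0 : ∀ M ∈ gates R.line, (comp (gates R.line) M).card ≤ ⌊(n : ℝ) ^ ε⌋₊ + 1 := fun M hM =>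
    (Nat.le_floor (hR M hM)).trans (Nat.le_succ _)
  have h1 := outside_card h0 t Γ
  have h2 : ((outside (gates R.line) t Γ).card : ℝ) ≤ (⌊(n : ℝ) ^ ε⌋₊ : ℝ) := by exact_mod_cast h1
  exact h2.trans (Nat.floor_le (Real.rpow_nonneg (Nat.cast_nonneg n) ε))

end Pool.Agent.Results.MP_c04246_lc.SmallCountingClasses
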